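import Pool.Agent.H37.SP.Stm
import Pool.Graph.R_seed8.Results.MP_00e23e_nt.LogLogLoss

set_option autoImplicit false

namespace Pool.Agent.H37.SP.BVLaux

open Finset Pool.Agent.Results.MP_00e23e_nt.LogLogLoss

lemma primesAP_le {y : ℝ} (hy : 0 ≤ y) {d l : ℕ} (hd : 1 ≤ d) :
    (primesAP y d l : ℝ) ≤ y / d + 1 := by
  have hd0 : (0:ℝ) < d := by exact_mod_cast hd
  have h1 : primesAP y d l ≤ ((Finset.Ioc 0 ⌊y⌋₊).filter (fun p => p ≡ l [MOD d])).card := by
    unfold primesAP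
    apply Finset.card_le_card
    intro p hp
    rw [Finset.mem_filter, Finset.mem_Icc] at hp
    rw [Finset.mem_filter, Finset.mem_Ioc]
    exact ⟨⟨by omega, hp.1.2⟩, hp.2.2⟩
  have h2 := Nat.Ioc_filter_modEq_card 0 ⌊y⌋₊ (r := d) (by omega) l
  have h3 : (((Finset.Ioc 0 ⌊y⌋₊).filter (fun p => p ≡ l [MOD d])).card : ℝ) ≤ y / d + 1 := by
    have h4 : ((((Finset.Ioc 0 ⌊y⌋₊).filter (fun p => p ≡ l [MOD d])).card : ℤ) : ℝ) ≤ y / d + 1 := by
      rw [h2]
      push_cast
      apply max_le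
      · have a1 : ((⌊((⌊y⌋₊ : ℚ) - l) / d⌋ : ℤ) : ℝ) ≤ (y - l) / d := by
          have b1 := Int.floor_le (((⌊y⌋₊ : ℚ) - l) / d)
          have b2 : ((⌊((⌊y⌋₊ : ℚ) - l) / d⌋ : ℤ) : ℝ) ≤ (((⌊y⌋₊ : ℝ) - l) / d) := by
            exact_mod_cast b1
          have b3 : (⌊y⌋₊ : ℝ) ≤ y := Nat.floor_le hy
          refine b2.trans ?_
          gcongr
        have a2 : (((0:ℝ) - l) / d) - 1 < ((⌊((0 : ℚ) - l) / d⌋ : ℤ) : ℝ) := by
          have b1 := Int.sub_one_lt_floor (((0 : ℚ) - l) / d)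
          exact_mod_cast b1
        have e1 : (y - l) / d = y / d - l / d := by ring
        have e2 : ((0:ℝ) - l) / d = - (l / d) := by ring
        simp only [Nat.cast_zero] at *
        linarith
      · positivity
    exact_mod_cast h4
  calc (primesAP y d l : ℝ) ≤ _ := by exact_mod_cast h1
    _ ≤ _ := h3

lemma log_pos_on {t : ℝ} (ht : 2 ≤ t) : (1:ℝ)/2 ≤ Real.log t := by
  have := Real.log_two_gt_d9
  have h := Real.log_le_log (by norm_num) ht
  linarith

lemma intble (a b : ℝ) (ha : 2 ≤ a) (hb : a ≤ b) :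
    IntervalIntegrable (fun t : ℝ => 1 / Real.log t) MeasureTheory.volume a b := by
  apply ContinuousOn.intervalIntegrable
  intro t ht
  rw [Set.uIcc_of_le hb] at ht
  have h2 : 2 ≤ t := ha.trans ht.1
  have := log_pos_on h2
  apply ContinuousAt.continuousWithinAt
  apply ContinuousAt.div continuousAt_const
  · exact Real.continuousAt_log (by linarith)
  · linarith

lemma int_bd {y : ℝ} (hy : 2 ≤ y) :
    0 ≤ (∫ t in (2 : ℝ)..y, 1 / Real.log t) ∧ (∫ t in (2 : ℝ)..y, 1 / Real.log t) ≤ 2 * y := by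
  constructor
  · apply intervalIntegral.integral_nonneg hy
    intro t ht
    have := log_pos_on ht.1
    positivity
  · have h1 : (∫ t in (2 : ℝ)..y, 1 / Real.log t) ≤ ∫ _t in (2 : ℝ)..y, (2:ℝ) := by
      apply intervalIntegral.integral_mono_on hy (intble 2 y le_rfl hy)
      · exact intervalIntegrable_const
      · intro t ht
        have := log_pos_on ht.1
        rw [div_le_iff₀ (by linarith)]
        linarith
    rw [intervalIntegral.integral_const] at h1
    simp only [smul_eq_mul] at h1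
    linarith

lemma E_triv (hphi : S_PHI) {x y : ℝ} (hy : 2 ≤ y) (hyx : y ≤ x) {d l : ℕ} (hd : 1 ≤ d)
    (hdx : (d : ℝ) ≤ x) :
    |E y d l| ≤ 4 * x * (d.divisors.card : ℝ) / d := by
  have hd0 : (0:ℝ) < d := by exact_mod_cast hd
  have h1 := primesAP_le (l := l) (by linarith : (0:ℝ) ≤ y) hd
  obtain ⟨h2, h3⟩ := int_bd hy
  have h4 := hphi d hd
  have htau : (1:ℝ) ≤ (d.divisors.card : ℝ) := by
    have : 0 < d.divisors.card := Finset.card_pos.2 ⟨1, by simp; omega⟩
    exact_mod_cast this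
  have hphi0 : (0:ℝ) < (Nat.totient d : ℝ) := by exact_mod_cast Nat.totient_pos.2 hd
  have h5 : (∫ t in (2 : ℝ)..y, 1 / Real.log t) / (Nat.totient d : ℝ) ≤
      2 * x * ((d.divisors.card : ℝ) / d) := by
    calc (∫ t in (2 : ℝ)..y, 1 / Real.log t) / (Nat.totient d : ℝ)
        = (∫ t in (2 : ℝ)..y, 1 / Real.log t) * (1 / (Nat.totient d : ℝ)) := by ring
      _ ≤ (2 * x) * ((d.divisors.card : ℝ) / d) := by
          apply mul_le_mul _ h4 (by positivity) (by linarith)
          linarith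
  have h6 : 0 ≤ (∫ t in (2 : ℝ)..y, 1 / Real.log t) / (Nat.totient d : ℝ) := by positivity
  have h7 : (primesAP y d l : ℝ) ≤ 2 * x * ((d.divisors.card : ℝ) / d) := by
    refine h1.trans ?_
    have a1 : y / d ≤ x * ((d.divisors.card : ℝ) / d) := by
      calc y / d ≤ x / d := by gcongr
        _ = x * (1 / d) := by ring
        _ ≤ _ := by
          apply mul_le_mul_of_nonneg_left _ (by linarith)
          gcongr
    have a2 : 1 ≤ x * ((d.divisors.card : ℝ) / d) := by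
      have : 1 ≤ x * (1 / d) := by
        rw [mul_one_div, le_div_iff₀ hd0]; linarith
      refine this.trans ?_
      apply mul_le_mul_of_nonneg_left _ (by linarith)
      gcongr
    linarith
  have h8 : (0:ℝ) ≤ primesAP y d l := Nat.cast_nonneg _
  unfold E
  rw [abs_le]
  have e : 4 * x * (d.divisors.card : ℝ) / d = 4 * (x * ((d.divisors.card : ℝ) / d)) := by ring
  rw [e]
  constructor <;> linarith


lemma prd_pos {s t : ℕ} (ht : 2 ≤ t) {a : Fin s → ℕ} (ha : a ∈ Box s t) : 1 ≤ prd a := by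
  unfold prd
  apply Nat.one_le_iff_ne_zero.2
  rw [Finset.prod_ne_zero_iff]
  intro i _
  have := Fintype.mem_piFinset.1 ha i
  rw [Finset.mem_Icc] at this
  have h : 0 < T t i := by unfold T; positivity
  omega

/-- Cauchy-Schwarz with multiplicities -/
lemma cs_mult {s t : ℕ} (ht : 2 ≤ t) (D : ℕ) (hD : ∀ a ∈ Box s t, prd a ≤ D)
    (hmul : S_MUL) (F : ℕ → ℝ) (hF : ∀ d, 0 ≤ F d) :
    (∑ a ∈ Box s t, F (prd a)) ^ 2 ≤
      (∑ d ∈ Icc 1 D, ((d.divisors.card : ℝ) ^ (2 * s)) * F d) * ∑ d ∈ Icc 1 D, F d := by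
  have h1 : ∑ a ∈ Box s t, F (prd a) =
      ∑ d ∈ Icc 1 D, (((Box s t).filter (fun a => prd a = d)).card : ℝ) * F d := by
    rw [← Finset.sum_fiberwise_of_maps_to (s := Box s t) (t := Icc 1 D) (g := prd)]
    · apply Finset.sum_congr rfl
      intro d _
      rw [Finset.sum_congr rfl (g := fun _ => F d)]
      · rw [Finset.sum_const, nsmul_eq_mul]
      · intro a ha
        rw [(Finset.mem_filter.1 ha).2]
    · intro a ha
      rw [Finset.mem_Icc]
      exact ⟨prd_pos ht ha, hD a ha⟩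
  have h2 : ∑ a ∈ Box s t, F (prd a) ≤
      ∑ d ∈ Icc 1 D, (((d.divisors.card : ℝ) ^ s) * Real.sqrt (F d)) * Real.sqrt (F d) := by
    rw [h1]
    apply Finset.sum_le_sum
    intro d hd
    rw [mul_assoc, Real.mul_self_sqrt (hF d)]
    apply mul_le_mul_of_nonneg_right _ (hF d)
    have := hmul s t d (Finset.mem_Icc.1 hd).1
    exact_mod_cast this
  have h3 : 0 ≤ ∑ a ∈ Box s t, F (prd a) := Finset.sum_nonneg (fun a _ => hF _)
  calc (∑ a ∈ Box s t, F (prd a)) ^ 2
      ≤ (∑ d ∈ Icc 1 D, (((d.divisors.card : ℝ) ^ s) * Real.sqrt (F d)) * Real.sqrt (F d)) ^ 2 := by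
        gcongr
    _ ≤ (∑ d ∈ Icc 1 D, (((d.divisors.card : ℝ) ^ s) * Real.sqrt (F d)) ^ 2) *
        ∑ d ∈ Icc 1 D, (Real.sqrt (F d)) ^ 2 := Finset.sum_mul_sq_le_sq_mul_sq _ _ _
    _ = _ := by
        congr 1
        · apply Finset.sum_congr rfl
          intro d _
          rw [mul_pow, Real.sq_sqrt (hF d), ← pow_mul, mul_comm s 2]
        · apply Finset.sum_congr rfl
          intro d _
          rw [Real.sq_sqrt (hF d)]

lemma Y_ge {s t : ℕ} (ht : 3 ≤ t) : (243 : ℝ) ≤ (Y s t : ℝ) := by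
  have h1 : 3 ^ 5 ≤ Y s t := by
    unfold Y
    calc 3 ^ 5 ≤ t ^ 5 := Nat.pow_le_pow_left ht 5
      _ = t ^ (5 ^ 1) := by norm_num
      _ ≤ t ^ 5 ^ (s + 1) := by
        apply Nat.pow_le_pow_right (by omega)
        exact Nat.pow_le_pow_right (by norm_num) (by omega)
  have h2 : ((243 : ℕ) : ℝ) ≤ (Y s t : ℝ) := by
    rw [Nat.cast_le]
    exact h1
  exact_mod_cast h2

lemma log_Y (s t : ℕ) : Real.log (Y s t : ℝ) = (5:ℝ) ^ (s+1) * Real.log t := by
  unfold Y
  push_cast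
  rw [Real.log_pow]
  push_cast
  ring

/-- `x^(6/10) (log x)^2 ≤ C x / (log x)^V` -/
lemma small_term (V : ℕ) : ∃ C : ℝ, 0 < C ∧ ∀ x : ℝ, 3 ≤ x → ∀ D : ℝ, 0 ≤ D → D ^ 10 ≤ x →
    D * Real.sqrt x * Real.log (Real.log x) ^ 2 ≤ C * (x / Real.log x ^ V) := by
  set η : ℝ := 1 / (5 * (V + 2)) with hη
  have hη0 : 0 < η := by positivity
  refine ⟨(1 / η) ^ (V + 2), by positivity, ?_⟩
  intro x hx D hD hDx
  have hx0 : (0:ℝ) < x := by linarith
  have hlx : 1 ≤ Real.log x := by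
    rw [Real.le_log_iff_exp_le hx0]
    have := Real.exp_one_lt_d9
    linarith
  have hll : 0 ≤ Real.log (Real.log x) := Real.log_nonneg hlx
  have hll2 : Real.log (Real.log x) ≤ Real.log x := by
    have := Real.log_le_sub_one_of_pos (by linarith : 0 < Real.log x)
    linarith
  have hD1 : D ≤ x ^ ((1:ℝ)/10) := by
    have h : D = (D ^ 10) ^ ((1:ℝ)/10) := by
      rw [← Real.rpow_natCast, ← Real.rpow_mul hD]
      norm_num
    rw [h]
    exact Real.rpow_le_rpow (by positivity) hDx (by norm_num)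
  have hlog : Real.log x ≤ x ^ η / η := Real.log_le_rpow_div hx0.le hη0
  have h1 : Real.log x ^ (V + 2) ≤ x ^ ((1:ℝ)/5) * (1 / η) ^ (V + 2) := by
    calc Real.log x ^ (V + 2) ≤ (x ^ η / η) ^ (V + 2) := by gcongr
      _ = (x ^ η) ^ (V + 2) * (1 / η) ^ (V + 2) := by rw [← mul_pow]; ring
      _ = x ^ ((1:ℝ)/5) * (1 / η) ^ (V + 2) := by
        congr 1
        rw [← Real.rpow_natCast, ← Real.rpow_mul hx0.le]
        congr 1
        rw [hη]
        push_cast
        field_simp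
  have h2 : D * Real.sqrt x ≤ x ^ ((3:ℝ)/5) := by
    rw [Real.sqrt_eq_rpow]
    calc D * x ^ ((1:ℝ)/2) ≤ x ^ ((1:ℝ)/10) * x ^ ((1:ℝ)/2) := by gcongr
      _ = x ^ ((3:ℝ)/5) := by
        rw [← Real.rpow_add hx0]; norm_num
  rw [mul_div_assoc', le_div_iff₀ (by positivity)]
  calc D * Real.sqrt x * Real.log (Real.log x) ^ 2 * Real.log x ^ V
      ≤ x ^ ((3:ℝ)/5) * Real.log x ^ 2 * Real.log x ^ V := by gcongr
    _ = x ^ ((3:ℝ)/5) * Real.log x ^ (V + 2) := by ring
    _ ≤ x ^ ((3:ℝ)/5) * (x ^ ((1:ℝ)/5) * (1 / η) ^ (V + 2)) := by gcongr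
    _ = (1 / η) ^ (V + 2) * x ^ ((4:ℝ)/5) := by
        have : x ^ ((3:ℝ)/5) * x ^ ((1:ℝ)/5) = x ^ ((4:ℝ)/5) := by
          rw [← Real.rpow_add hx0]; norm_num
        rw [← this]; ring
    _ ≤ (1 / η) ^ (V + 2) * x := by
        apply mul_le_mul_of_nonneg_left _ (by positivity)
        calc x ^ ((4:ℝ)/5) ≤ x ^ (1:ℝ) :=
              Real.rpow_le_rpow_of_exponent_le (by linarith) (by norm_num)
          _ = x := Real.rpow_one x

lemma bv_err (htau : S_TAU) (hphi : S_PHI) (hmul : S_MUL) (hbnd : S_BND) (s U : ℕ) :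
    ∃ C : ℝ, 0 < C ∧ ∀ t : ℕ, 3 ≤ t → ∀ y : ℝ, (Y s t : ℝ) / 2 ≤ y →
    y ≤ Y s t → ∑ a ∈ Box s t, |E y (prd a) (prd a - 1)| ≤ C * (Y s t : ℝ) / Real.log t ^ U := by
  set W : ℕ := 2 ^ (2 * s + 1) with hW
  set V : ℕ := 2 * U + W with hV
  obtain ⟨C0, hC0⟩ := result (V : ℝ)
  obtain ⟨C1, hC1, hsm⟩ := small_term V
  set C2 : ℝ := (|C0| * (1 + C1)) with hC2
  have hC2' : 0 ≤ C2 := by positivity
  refine ⟨Real.sqrt (4 * 2 ^ W * C2) + 1, by positivity, ?_⟩
  intro t ht y hy1 hy2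
  set x : ℝ := (Y s t : ℝ) with hx
  have hx243 : 243 ≤ x := Y_ge ht
  have hx0 : 0 < x := by linarith
  have hlt : 1 ≤ Real.log t := by
    rw [Real.le_log_iff_exp_le (by positivity)]
    have := Real.exp_one_lt_d9
    have h3 : (3:ℝ) ≤ t := by exact_mod_cast ht
    linarith
  have hlx : Real.log t ≤ Real.log x := by
    rw [hx, log_Y]
    have : (1:ℝ) ≤ 5 ^ (s + 1) := one_le_pow₀ (by norm_num)
    nlinarith
  have hlx1 : 1 ≤ Real.log x := hlt.trans hlx
  set D : ℕ := ⌊x ^ ((1:ℝ)/10)⌋₊ with hD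
  have hx10 : (1:ℝ) ≤ x ^ ((1:ℝ)/10) := Real.one_le_rpow (by linarith) (by norm_num)
  have hD1 : 1 ≤ D := Nat.le_floor (by simpa using hx10)
  have hDle : (D:ℝ) ≤ x ^ ((1:ℝ)/10) := Nat.floor_le (by positivity)
  have hD10 : (D:ℝ) ^ 10 ≤ x := by
    calc (D:ℝ) ^ 10 ≤ (x ^ ((1:ℝ)/10)) ^ 10 := by gcongr
      _ = x := by
        rw [← Real.rpow_natCast, ← Real.rpow_mul hx0.le]
        norm_num
  have hD1' : (1:ℝ) ≤ D := by exact_mod_cast hD1
  have hDx : (D:ℝ) ≤ x := by
    calc (D:ℝ) = (D:ℝ) ^ 1 := (pow_one _).symm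
      _ ≤ (D:ℝ) ^ 10 := pow_le_pow_right₀ hD1' (by norm_num)
      _ ≤ x := hD10
  have hDsq : (D:ℝ) ≤ Real.sqrt x := by
    apply Real.le_sqrt_of_sq_le
    calc (D:ℝ) ^ 2 ≤ (D:ℝ) ^ 10 := pow_le_pow_right₀ hD1' (by norm_num)
      _ ≤ x := hD10
  have hprd : ∀ a ∈ Box s t, prd a ≤ D := by
    intro a ha
    apply Nat.le_floor
    have h1 := (hbnd s t (by omega) a ha).1
    have h2 : ((prd a : ℝ)) ^ 10 ≤ x := by rw [hx]; exact_mod_cast h1
    have h : (prd a : ℝ) = ((prd a : ℝ) ^ 10) ^ ((1:ℝ)/10) := by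
      rw [← Real.rpow_natCast, ← Real.rpow_mul (by positivity)]
      norm_num
    rw [h]
    exact Real.rpow_le_rpow (by positivity) h2 (by norm_num)
  set F : ℕ → ℝ := fun d => |E y d (d - 1)| with hF
  have hcs := cs_mult (s := s) (t := t) (by omega) D hprd hmul F (fun d => abs_nonneg _)
  have hy : 2 ≤ y := by linarith
  have hb1 : ∑ d ∈ Icc 1 D, F d ≤ C2 * (x / Real.log x ^ V) := by
    have h1 := hC0 x (by linarith) (D:ℝ) (by positivity) hDsq (fun _ => y)
      (fun _ => ⟨hy, hy2⟩) (fun d => d - 1) (by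
        intro d hd
        obtain ⟨n, rfl⟩ : ∃ n, d = n + 1 := ⟨d - 1, by omega⟩
        simp)
    rw [Nat.floor_natCast, Real.rpow_natCast] at h1
    refine h1.trans ?_
    have h2 := hsm x (by linarith) (D:ℝ) (by positivity) hD10
    have h3 : 0 ≤ x / Real.log x ^ V := by positivity
    have h4 : 0 ≤ (D:ℝ) * Real.sqrt x * Real.log (Real.log x) ^ 2 := by positivity
    calc C0 * (x / Real.log x ^ V + (D:ℝ) * Real.sqrt x * Real.log (Real.log x) ^ 2)
        ≤ |C0| * (x / Real.log x ^ V + (D:ℝ) * Real.sqrt x * Real.log (Real.log x) ^ 2) := by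
          apply mul_le_mul_of_nonneg_right (le_abs_self _) (by positivity)
      _ ≤ |C0| * (x / Real.log x ^ V + C1 * (x / Real.log x ^ V)) := by gcongr
      _ = C2 * (x / Real.log x ^ V) := by rw [hC2]; ring
  have hb2 : ∑ d ∈ Icc 1 D, ((d.divisors.card : ℝ) ^ (2 * s)) * F d ≤
      4 * x * (2 * Real.log x) ^ W := by
    calc ∑ d ∈ Icc 1 D, ((d.divisors.card : ℝ) ^ (2 * s)) * F d
        ≤ ∑ d ∈ Icc 1 D, 4 * x * (((d.divisors.card : ℝ) ^ (2 * s + 1)) / d) := by
          apply Finset.sum_le_sum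
          intro d hd
          rw [Finset.mem_Icc] at hd
          have hdx : (d:ℝ) ≤ x := by
            have : (d:ℝ) ≤ D := by exact_mod_cast hd.2
            linarith
          have := E_triv hphi hy hy2 (l := d - 1) hd.1 hdx
          calc ((d.divisors.card : ℝ) ^ (2 * s)) * F d
              ≤ ((d.divisors.card : ℝ) ^ (2 * s)) * (4 * x * (d.divisors.card : ℝ) / d) := by
                gcongr
            _ = _ := by ring
      _ = 4 * x * ∑ d ∈ Icc 1 D, (((d.divisors.card : ℝ) ^ (2 * s + 1)) / d) := by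
          rw [Finset.mul_sum]
      _ ≤ 4 * x * (1 + Real.log D) ^ (2 ^ (2 * s + 1)) := by
          gcongr
          exact htau (2 * s + 1) D hD1
      _ ≤ 4 * x * (2 * Real.log x) ^ W := by
          have hlD : Real.log D ≤ Real.log x := Real.log_le_log (by positivity) hDx
          have hlD0 : 0 ≤ Real.log D := Real.log_nonneg hD1'
          gcongr
          linarith
  have hnn : 0 ≤ ∑ a ∈ Box s t, |E y (prd a) (prd a - 1)| :=
    Finset.sum_nonneg (fun a _ => abs_nonneg _)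
  have hb3 : (∑ a ∈ Box s t, |E y (prd a) (prd a - 1)|) ^ 2 ≤
      (4 * 2 ^ W * C2) * (x / Real.log x ^ U) ^ 2 := by
    calc (∑ a ∈ Box s t, |E y (prd a) (prd a - 1)|) ^ 2
        = (∑ a ∈ Box s t, F (prd a)) ^ 2 := rfl
      _ ≤ _ := hcs
      _ ≤ (4 * x * (2 * Real.log x) ^ W) * (C2 * (x / Real.log x ^ V)) := by
          apply mul_le_mul hb2 hb1
          · exact Finset.sum_nonneg (fun d _ => abs_nonneg _)
          · positivity
      _ = (4 * 2 ^ W * C2) * (x / Real.log x ^ U) ^ 2 := by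
          rw [hV, pow_add, mul_comm 2 U, pow_mul]
          have hl : Real.log x ≠ 0 := by linarith
          field_simp
          rw [mul_pow]
          ring
  have hb4 : ∑ a ∈ Box s t, |E y (prd a) (prd a - 1)| ≤
      Real.sqrt (4 * 2 ^ W * C2) * (x / Real.log x ^ U) := by
    have h0 : 0 ≤ x / Real.log x ^ U := by positivity
    calc ∑ a ∈ Box s t, |E y (prd a) (prd a - 1)|
        = Real.sqrt ((∑ a ∈ Box s t, |E y (prd a) (prd a - 1)|) ^ 2) := (Real.sqrt_sq hnn).symm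
      _ ≤ Real.sqrt ((4 * 2 ^ W * C2) * (x / Real.log x ^ U) ^ 2) := Real.sqrt_le_sqrt hb3
      _ = _ := by rw [Real.sqrt_mul (by positivity), Real.sqrt_sq h0]
  calc ∑ a ∈ Box s t, |E y (prd a) (prd a - 1)|
      ≤ Real.sqrt (4 * 2 ^ W * C2) * (x / Real.log x ^ U) := hb4
    _ ≤ Real.sqrt (4 * 2 ^ W * C2) * (x / Real.log t ^ U) := by gcongr
    _ ≤ (Real.sqrt (4 * 2 ^ W * C2) + 1) * (x / Real.log t ^ U) := by
        apply mul_le_mul_of_nonneg_right (by linarith) (by positivity)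
    _ = _ := by ring


/-- number of primes in `(Y/2, Y]` with `A ∣ p + 1` -/
lemma count_eq {s t A : ℕ} (hA : 1 ≤ A) :
    (((PP s t).filter (fun p => A ∣ p + 1)).card : ℝ) =
      (primesAP (Y s t : ℝ) A (A - 1) : ℝ) - (primesAP ((Y s t : ℝ) / 2) A (A - 1) : ℝ) := by
  have hfl : ⌊((Y s t : ℝ)) / 2⌋₊ = Y s t / 2 := by
    have := Nat.floor_div_natCast ((Y s t : ℝ)) 2
    simpa using this
  have hmod : ∀ p : ℕ, (A ∣ p + 1 ↔ p ≡ A - 1 [MOD A]) := by
    intro p
    constructor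
    · intro h
      have h1 : p + 1 ≡ (A - 1) + 1 [MOD A] := by
        rw [Nat.sub_add_cancel hA]
        exact ((Nat.modEq_zero_iff_dvd).2 h).trans ((Nat.modEq_zero_iff_dvd).2 dvd_rfl).symm
      exact Nat.ModEq.add_right_cancel' 1 h1
    · intro h
      have h1 : p + 1 ≡ (A - 1) + 1 [MOD A] := Nat.ModEq.add_right 1 h
      rw [Nat.sub_add_cancel hA] at h1
      exact (Nat.modEq_zero_iff_dvd).1 (h1.trans ((Nat.modEq_zero_iff_dvd).2 dvd_rfl))
  have hle : ((Finset.Icc 1 (Y s t / 2)).filter (fun p => p.Prime ∧ p ≡ A - 1 [MOD A])) ⊆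
      ((Finset.Icc 1 (Y s t)).filter (fun p => p.Prime ∧ p ≡ A - 1 [MOD A])) := by
    apply Finset.filter_subset_filter
    apply Finset.Icc_subset_Icc le_rfl
    omega
  have heq : (PP s t).filter (fun p => A ∣ p + 1) =
      ((Finset.Icc 1 (Y s t)).filter (fun p => p.Prime ∧ p ≡ A - 1 [MOD A])) \
      ((Finset.Icc 1 (Y s t / 2)).filter (fun p => p.Prime ∧ p ≡ A - 1 [MOD A])) := by
    ext p
    unfold PP
    rw [Finset.mem_filter, Finset.mem_filter, Finset.mem_Ioc, Finset.mem_sdiff, Finset.mem_filter,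
      Finset.mem_filter, Finset.mem_Icc, Finset.mem_Icc, hmod p]
    constructor
    · rintro ⟨⟨⟨h1, h2⟩, h3⟩, h4⟩
      exact ⟨⟨⟨h3.pos, h2⟩, h3, h4⟩, fun h => by omega⟩
    · rintro ⟨⟨⟨h1, h2⟩, h3, h4⟩, h5⟩
      refine ⟨⟨⟨?_, h2⟩, h3⟩, h4⟩
      by_contra h6
      exact h5 ⟨⟨h1, by omega⟩, h3, h4⟩
  unfold primesAP
  rw [heq, Finset.card_sdiff_of_subset hle, Nat.floor_natCast, hfl,
    Nat.cast_sub (Finset.card_le_card hle)]

/-- BVL -/
theorem t_BVL (htau : S_TAU) (hphi : S_PHI) (hmul : S_MUL) (hbnd : S_BND) (hbox : S_BOX) :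
    S_BVL := by
  intro s hs
  obtain ⟨C, hC, herr⟩ := bv_err htau hphi hmul hbnd s 1
  set K : ℝ := (5:ℝ) ^ (s + 1) with hK
  have hK1 : 1 ≤ K := one_le_pow₀ (by norm_num)
  refine ⟨1 / (4 * K), by positivity, ⌈Real.exp (8 * K * C + 1)⌉₊ + 3, ?_⟩
  intro t ht
  have ht3 : 3 ≤ t := by omega
  have ht3' : (3:ℝ) ≤ t := by exact_mod_cast ht3
  set x : ℝ := (Y s t : ℝ) with hx
  have hx243 : 243 ≤ x := Y_ge ht3
  have hx0 : 0 < x := by linarith
  have hlt : 8 * K * C + 1 ≤ Real.log t := by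
    rw [Real.le_log_iff_exp_le (by linarith)]
    have h1 := Nat.le_ceil (Real.exp (8 * K * C + 1))
    have h2 : ((⌈Real.exp (8 * K * C + 1)⌉₊ : ℕ) : ℝ) ≤ t := by exact_mod_cast (by omega)
    linarith
  have hKC : 0 < 8 * K * C := by positivity
  have hlt1 : 1 ≤ Real.log t := by linarith
  have hlx : Real.log x = K * Real.log t := by rw [hx, log_Y]
  have hlx0 : 0 < Real.log x := by rw [hlx]; positivity
  have hint : x / (2 * Real.log x) ≤ (∫ t in (2 : ℝ)..x, 1 / Real.log t) -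
      (∫ t in (2 : ℝ)..(x / 2), 1 / Real.log t) := by
    rw [intervalIntegral.integral_interval_sub_left (intble 2 x le_rfl (by linarith))
      (intble 2 (x/2) le_rfl (by linarith))]
    have h1 : (∫ _t in (x/2)..x, 1 / Real.log x) ≤ ∫ t in (x/2)..x, 1 / Real.log t := by
      apply intervalIntegral.integral_mono_on (by linarith) intervalIntegrable_const
        (intble (x/2) x (by linarith) (by linarith))
      intro u hu
      have hu0 : 0 < Real.log u := by
        have := log_pos_on (t := u) (by linarith [hu.1])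
        linarith
      apply one_div_le_one_div_of_le hu0
      exact Real.log_le_log (by linarith [hu.1]) hu.2
    rw [intervalIntegral.integral_const, smul_eq_mul] at h1
    calc x / (2 * Real.log x) = (x - x / 2) * (1 / Real.log x) := by field_simp; ring
      _ ≤ _ := h1
  have hcount : ∀ a ∈ Box s t, x / (2 * Real.log x) * (1 / (prd a : ℝ)) -
      |E x (prd a) (prd a - 1)| - |E (x/2) (prd a) (prd a - 1)| ≤
      (((PP s t).filter (fun p => prd a ∣ p + 1)).card : ℝ) := by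
    intro a ha
    have hA : 1 ≤ prd a := prd_pos (by omega) ha
    have hA' : (1:ℝ) ≤ prd a := by exact_mod_cast hA
    rw [count_eq hA]
    have h1 : (primesAP x (prd a) (prd a - 1) : ℝ) = E x (prd a) (prd a - 1) +
        (∫ t in (2 : ℝ)..x, 1 / Real.log t) / (Nat.totient (prd a) : ℝ) := by
      unfold E; ring
    have h2 : (primesAP (x/2) (prd a) (prd a - 1) : ℝ) = E (x/2) (prd a) (prd a - 1) +
        (∫ t in (2 : ℝ)..(x/2), 1 / Real.log t) / (Nat.totient (prd a) : ℝ) := by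
      unfold E; ring
    rw [h1, h2]
    have hphi0 : (0:ℝ) < (Nat.totient (prd a) : ℝ) := by exact_mod_cast Nat.totient_pos.2 hA
    have hphi1 : (Nat.totient (prd a) : ℝ) ≤ prd a := by exact_mod_cast Nat.totient_le _
    have h3 : x / (2 * Real.log x) * (1 / (prd a : ℝ)) ≤
        (∫ t in (2 : ℝ)..x, 1 / Real.log t) / (Nat.totient (prd a) : ℝ) -
        (∫ t in (2 : ℝ)..(x/2), 1 / Real.log t) / (Nat.totient (prd a) : ℝ) := by
      rw [← sub_div]
      calc x / (2 * Real.log x) * (1 / (prd a : ℝ))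
          ≤ x / (2 * Real.log x) * (1 / (Nat.totient (prd a) : ℝ)) := by gcongr
        _ = (x / (2 * Real.log x)) / (Nat.totient (prd a) : ℝ) := by ring
        _ ≤ _ := by gcongr
    have h4 := neg_abs_le (E x (prd a) (prd a - 1))
    have h5 := le_abs_self (E (x/2) (prd a) (prd a - 1))
    linarith
  have hswap : ∑ p ∈ PP s t, ((Tup s t p).card : ℝ) =
      ∑ a ∈ Box s t, (((PP s t).filter (fun p => prd a ∣ p + 1)).card : ℝ) := by
    have : ∑ p ∈ PP s t, (Tup s t p).card =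
        ∑ a ∈ Box s t, ((PP s t).filter (fun p => prd a ∣ p + 1)).card := by
      unfold Tup
      exact Finset.sum_card_bipartiteAbove_eq_sum_card_bipartiteBelow (fun p a => prd a ∣ p + 1)
    exact_mod_cast this
  have he1 := herr t ht3 x (by linarith) le_rfl
  have he2 := herr t ht3 (x/2) le_rfl (by linarith)
  have hsum : x / (2 * Real.log x) * (Real.log t ^ s) - 2 * (C * x / Real.log t ^ 1) ≤
      ∑ p ∈ PP s t, ((Tup s t p).card : ℝ) := by
    rw [hswap]
    have hb := hbox s t (by omega)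
    calc x / (2 * Real.log x) * (Real.log t ^ s) - 2 * (C * x / Real.log t ^ 1)
        ≤ x / (2 * Real.log x) * (∑ a ∈ Box s t, (1 : ℝ) / (prd a : ℝ)) -
          ∑ a ∈ Box s t, |E x (prd a) (prd a - 1)| -
          ∑ a ∈ Box s t, |E (x/2) (prd a) (prd a - 1)| := by
          have : x / (2 * Real.log x) * (Real.log t ^ s) ≤
            x / (2 * Real.log x) * (∑ a ∈ Box s t, (1 : ℝ) / (prd a : ℝ)) := by gcongr
          linarith
      _ = ∑ a ∈ Box s t, (x / (2 * Real.log x) * (1 / (prd a : ℝ)) -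
          |E x (prd a) (prd a - 1)| - |E (x/2) (prd a) (prd a - 1)|) := by
          rw [Finset.sum_sub_distrib, Finset.sum_sub_distrib, Finset.mul_sum]
      _ ≤ _ := Finset.sum_le_sum hcount
  have hlog0 : 0 < Real.log t := by linarith
  have hpow : Real.log t ≤ Real.log t ^ s := by
    calc Real.log t = Real.log t ^ 1 := (pow_one _).symm
      _ ≤ Real.log t ^ s := pow_le_pow_right₀ hlt1 hs
  calc 1 / (4 * K) * x * Real.log t ^ s
      ≤ (x / (2 * K)) * (Real.log t ^ s) - 2 * C * x := by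
        have h1 : 2 * C * x ≤ 1 / (4 * K) * x * Real.log t ^ s := by
          have h2 : 8 * K * C ≤ Real.log t ^ s := by linarith
          calc 2 * C * x = 1 / (4 * K) * x * (8 * K * C) := by field_simp; ring
            _ ≤ _ := by gcongr
        have h3 : (x / (2 * K)) * (Real.log t ^ s) = 2 * (1 / (4 * K) * x * Real.log t ^ s) := by
          field_simp; ring
        rw [h3]; linarith
    _ = Real.log t * (x / (2 * Real.log x) * (Real.log t ^ s) - 2 * (C * x / Real.log t ^ 1)) := by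
        rw [hlx]; field_simp
    _ ≤ _ := by gcongr

end Pool.Agent.H37.SP.BVLaux
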