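import Mathlib

/-!
Definitions for `MP_0cd084_nt`: the number `N k` of multisets of `k` positive integers with equal
sum and product, and the super-separated boxes of factorizations attached to a prime.
-/

set_option autoImplicit false

namespace Pool.Agent.H37.SP

open Finset

/-- the multisets of `k` positive integers whose product equals their sum -/
def solSet (k : ℕ) : Set (Multiset ℕ) :=
  {s : Multiset ℕ | Multiset.card s = k ∧ (∀ a ∈ s, 0 < a) ∧ s.prod = s.sum}

/-- the number of multisets of `k` positive integers whose product equals their sum -/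
noncomputable def N (k : ℕ) : ℕ := (solSet k).ncard

/-- lower end of the `i`-th box -/
def T (t i : ℕ) : ℕ := t ^ 5 ^ i

/-- the tuples `(a_0, ..., a_{s-1})` with `T t i ≤ a_i ≤ (T t i) ^ 2` -/
def Box (s t : ℕ) : Finset (Fin s → ℕ) :=
  Fintype.piFinset (fun i : Fin s => Finset.Icc (T t i) (T t i ^ 2))

/-- the product of a tuple -/
def prd {s : ℕ} (a : Fin s → ℕ) : ℕ := ∏ i, a i

/-- the sum of the `a_i - 1` -/
def sg {s : ℕ} (a : Fin s → ℕ) : ℕ := ∑ i, (a i - 1)

/-- the scale of the primes -/
def Y (s t : ℕ) : ℕ := t ^ 5 ^ (s + 1)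

/-- the primes in `(Y/2, Y]` -/
def PP (s t : ℕ) : Finset ℕ := (Finset.Ioc (Y s t / 2) (Y s t)).filter Nat.Prime

/-- the tuples attached to `p` -/
def Tup (s t p : ℕ) : Finset (Fin s → ℕ) := (Box s t).filter (fun a => prd a ∣ p + 1)

/-- the residues modulo `p` attached to `p` -/
def Res (s t p : ℕ) : Finset ℕ := by
  classical
  exact (Finset.range p).filter (fun r => ∃ a ∈ Tup s t p, p ∣ r + sg a + (p + 1) / prd a)

end Pool.Agent.H37.SP
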