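import Pool.Agent.H37.SP.Stm

set_option autoImplicit false

namespace Pool.Agent.H37.SP.Paux

open Finset Filter

/-- the final comparison of exponentials -/
lemma exp_cmp {l P A C E : ℝ} (hP : 0 ≤ P) (hPl : 32 * P ≤ l) (hC : 36 ≤ Real.exp P)
    (hA0 : 0 ≤ A) (hA : A ≤ Real.exp P) (hE : E ≤ P) (hCnn : C ≤ 6 * Real.exp (l / 2)) :
    C + 2 * A * (6 * (Real.exp l * Real.exp (-(4 * P))) + 2 * Real.exp (l / 2)) ≤
      Real.exp l * Real.exp (-E) := by
  have h1 : Real.exp (l / 2) ≤ Real.exp (l - 3 * P) := Real.exp_le_exp.2 (by linarith)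
  have h2 : A * (Real.exp l * Real.exp (-(4 * P))) ≤ Real.exp (l - 3 * P) := by
    calc A * (Real.exp l * Real.exp (-(4 * P)))
        ≤ Real.exp P * (Real.exp l * Real.exp (-(4 * P))) := by gcongr
      _ = Real.exp (l - 3 * P) := by
        rw [← Real.exp_add, ← Real.exp_add]; congr 1; ring
  have h3 : A * Real.exp (l / 2) ≤ Real.exp (l - 3 * P) := by
    calc A * Real.exp (l / 2) ≤ Real.exp P * Real.exp (l / 2) := by gcongr
      _ = Real.exp (P + l / 2) := by rw [← Real.exp_add]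
      _ ≤ _ := Real.exp_le_exp.2 (by linarith)
  calc C + 2 * A * (6 * (Real.exp l * Real.exp (-(4 * P))) + 2 * Real.exp (l / 2))
      = C + 12 * (A * (Real.exp l * Real.exp (-(4 * P)))) + 4 * (A * Real.exp (l / 2)) := by ring
    _ ≤ 36 * Real.exp (l - 3 * P) := by nlinarith [Real.exp_pos (l - 3 * P)]
    _ ≤ Real.exp P * Real.exp (l - 3 * P) := by gcongr
    _ = Real.exp (l - 2 * P) := by rw [← Real.exp_add]; congr 1; ring
    _ ≤ Real.exp (l + -E) := Real.exp_le_exp.2 (by linarith)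
    _ = _ := Real.exp_add _ _

theorem t_PAR (hBVL : S_BVL) (hCMB : S_CMB) : S_PAR := by
  intro B ε hε
  set B' : ℝ := max B 0 with hB'
  have hB'0 : 0 ≤ B' := le_max_right _ _
  set δ : ℝ := min ε 1 / 2 with hδ
  have hm : 0 < min ε 1 := lt_min hε one_pos
  have hδ0 : 0 < δ := by rw [hδ]; linarith
  have hδε : δ < ε := by
    have := min_le_left ε 1
    rw [hδ]; linarith
  have hδ1 : δ ≤ 1 / 2 := by
    have := min_le_right ε 1
    rw [hδ]; linarith
  set s : ℕ := ⌈(B' + 2) / δ⌉₊ + 1 with hs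
  have hs1 : 1 ≤ s := by omega
  have hsδ : B' + 2 ≤ δ * ((s - 1 : ℕ) : ℝ) := by
    have h1 := Nat.le_ceil ((B' + 2) / δ)
    have h2 : s - 1 = ⌈(B' + 2) / δ⌉₊ := by omega
    rw [h2]
    calc B' + 2 = δ * ((B' + 2) / δ) := by field_simp
      _ ≤ _ := by gcongr
  obtain ⟨c, hc, t0, hbv⟩ := hBVL s hs1
  set K : ℝ := (5:ℝ) ^ (s + 1) with hK
  have hK1 : 1 ≤ K := one_le_pow₀ (by norm_num)
  have hK0 : 0 < K := by linarith
  have t1 : Tendsto (fun l : ℝ => l ^ δ) atTop atTop := tendsto_rpow_atTop hδ0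
  have t2 : Tendsto (fun l : ℝ => l ^ (1 - δ)) atTop atTop := tendsto_rpow_atTop (by linarith)
  have t3 : Tendsto (fun l : ℝ => l ^ (ε - δ)) atTop atTop := tendsto_rpow_atTop (by linarith)
  have t4 := (isLittleO_log_rpow_atTop (show 0 < 1 - δ by linarith)).bound
    (show 0 < 1 / (32 * K * (B' + 1)) by positivity)
  have hev : ∀ᶠ l : ℝ in atTop, 1 ≤ l ∧ 2 ^ (s - 1) / c ≤ l ∧
      (Real.log ((t0:ℝ) + 3) + 2 ≤ l ^ δ) ∧ (128 * K ≤ l ^ (1 - δ)) ∧
      (32 * K ≤ l ^ (ε - δ)) ∧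
      ‖Real.log l‖ ≤ 1 / (32 * K * (B' + 1)) * ‖l ^ (1 - δ)‖ := by
    filter_upwards [eventually_ge_atTop (1:ℝ), eventually_ge_atTop (2 ^ (s - 1) / c),
      t1.eventually_ge_atTop (Real.log ((t0:ℝ) + 3) + 2), t2.eventually_ge_atTop (128 * K),
      t3.eventually_ge_atTop (32 * K), t4] with l h1 h2 h3 h4 h5 h6
    exact ⟨h1, h2, h3, h4, h5, h6⟩
  have hev2 := Real.tendsto_log_atTop.eventually hev
  obtain ⟨x0, hx0⟩ := (hev2.and (eventually_ge_atTop (1:ℝ))).exists_forall_of_atTop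
  refine ⟨x0, fun x hx => ?_⟩
  obtain ⟨⟨hl1, hl2, hl3, hl4, hl5, hl6⟩, hx1⟩ := hx0 x hx
  set l : ℝ := Real.log x with hl
  have hxpos : 0 < x := by linarith
  have hl0 : 0 < l := by linarith
  have hexl : Real.exp l = x := Real.exp_log hxpos
  set D : ℝ := l ^ δ with hD
  have hlt0 : 0 ≤ Real.log ((t0:ℝ) + 3) := Real.log_nonneg (by
    have : (0:ℝ) ≤ t0 := Nat.cast_nonneg _
    linarith)
  have hD2 : 2 ≤ D := by linarith
  set t : ℕ := ⌊Real.exp D⌋₊ with ht
  have htle : (t : ℝ) ≤ Real.exp D := Nat.floor_le (Real.exp_pos _).le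
  have htge : (t0 : ℝ) + 3 ≤ Real.exp D := by
    have : Real.log ((t0:ℝ) + 3) ≤ D := by linarith
    exact (Real.log_le_iff_le_exp (by positivity)).1 this
  have ht0 : t0 + 3 ≤ t := Nat.le_floor (by push_cast; exact htge)
  have ht2 : 2 ≤ t := by omega
  have ht2' : (2:ℝ) ≤ t := by exact_mod_cast ht2
  have hlogt1 : Real.log t ≤ D := by
    calc Real.log t ≤ Real.log (Real.exp D) := Real.log_le_log (by linarith) htle
      _ = D := Real.log_exp D
  have hlogt2 : D / 2 ≤ Real.log t := by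
    have h1 : Real.exp D < t + 1 := Nat.lt_floor_add_one _
    have h2 : Real.exp (D - 1) ≤ t := by
      have h3 : Real.exp D = Real.exp (D - 1) * Real.exp 1 := by
        rw [← Real.exp_add]; congr 1; ring
      have h4 : (2:ℝ) ≤ Real.exp 1 := by
        have := Real.add_one_le_exp (1:ℝ)
        linarith
      have h5 : 0 < Real.exp (D - 1) := Real.exp_pos _
      nlinarith
    have h6 : D - 1 ≤ Real.log t := (Real.le_log_iff_exp_le (by linarith)).2 h2
    linarith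
  have hbt := hbv t (by omega)
  have hYpos : (0:ℝ) < (Y s t : ℝ) := by
    have : 0 < Y s t := by unfold Y; positivity
    exact_mod_cast this
  have hY1 : (1:ℝ) ≤ (Y s t : ℝ) := by
    have : 0 < Y s t := by unfold Y; positivity
    exact_mod_cast this
  have hYle : (Y s t : ℝ) ≤ Real.exp (K * D) := by
    unfold Y
    push_cast
    calc (t:ℝ) ^ 5 ^ (s + 1) ≤ (Real.exp D) ^ 5 ^ (s + 1) := by gcongr
      _ = Real.exp (K * D) := by
        rw [← Real.exp_nat_mul]; push_cast; rw [hK]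
  set r : ℕ := ⌊l ^ (1 - δ) / (8 * K)⌋₊ with hr
  have hrle : (r : ℝ) ≤ l ^ (1 - δ) / (8 * K) := Nat.floor_le (by positivity)
  have hrge : l ^ (1 - δ) / (8 * K) < r + 1 := Nat.lt_floor_add_one _
  have hlD : l ^ (1 - δ) * D = l := by
    rw [hD, ← Real.rpow_add hl0]; simp
  have hY4 : (Y s t : ℝ) ^ (4 * r) ≤ Real.exp (l / 2) := by
    calc (Y s t : ℝ) ^ (4 * r) ≤ (Real.exp (K * D)) ^ (4 * r) := by gcongr
      _ = Real.exp (((4 * r : ℕ) : ℝ) * (K * D)) := by rw [← Real.exp_nat_mul]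
      _ ≤ Real.exp (l / 2) := by
        apply Real.exp_le_exp.2
        push_cast
        calc 4 * (r:ℝ) * (K * D) ≤ 4 * (l ^ (1 - δ) / (8 * K)) * (K * D) := by gcongr
          _ = (l ^ (1 - δ) * D) / 2 := by field_simp; ring
          _ = l / 2 := by rw [hlD]
  set M : ℕ := ⌊l ^ B'⌋₊ with hM
  have hlB1 : 1 ≤ l ^ B' := Real.one_le_rpow hl1 hB'0
  have hMle : ((M : ℝ) + 1) ≤ 2 * l ^ B' := by
    have : (M : ℝ) ≤ l ^ B' := Nat.floor_le (by positivity)
    linarith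
  set L : ℝ := Real.exp 1 with hL
  have hL1 : 1 ≤ L := by
    have := Real.add_one_le_exp (1:ℝ)
    linarith
  have hL3 : L + 1 ≤ 4 := by
    have := Real.exp_one_lt_d9
    linarith
  -- the main condition
  have hcond : (((M + 1) * r : ℕ) : ℝ) * (L + 1) ≤ ∑ p ∈ PP s t, ((Tup s t p).card : ℝ) / p := by
    have a1 : c * Real.log t ^ (s - 1) ≤ ∑ p ∈ PP s t, ((Tup s t p).card : ℝ) / p := by
      have hlt : 0 < Real.log t := by linarith
      have b1 : c * Real.log t ^ (s - 1) * (Y s t : ℝ) ≤ ∑ p ∈ PP s t, ((Tup s t p).card : ℝ) := by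
        have e1 : Real.log t ^ s = Real.log t * Real.log t ^ (s - 1) := by
          rw [← pow_succ']; congr 1
        rw [e1] at hbt
        have : Real.log t * (c * Real.log t ^ (s - 1) * (Y s t : ℝ)) ≤
            Real.log t * ∑ p ∈ PP s t, ((Tup s t p).card : ℝ) := by
          calc Real.log t * (c * Real.log t ^ (s - 1) * (Y s t : ℝ))
              = c * (Y s t : ℝ) * (Real.log t * Real.log t ^ (s - 1)) := by ring
            _ ≤ _ := hbt
        exact le_of_mul_le_mul_left this hlt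
      calc c * Real.log t ^ (s - 1) = (c * Real.log t ^ (s - 1) * (Y s t : ℝ)) / (Y s t : ℝ) := by
            field_simp
        _ ≤ (∑ p ∈ PP s t, ((Tup s t p).card : ℝ)) / (Y s t : ℝ) := by gcongr
        _ = ∑ p ∈ PP s t, ((Tup s t p).card : ℝ) / (Y s t : ℝ) := by rw [Finset.sum_div]
        _ ≤ _ := by
          apply Finset.sum_le_sum
          intro p hp
          have hp' := hp
          unfold PP at hp'
          rw [Finset.mem_filter, Finset.mem_Ioc] at hp'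
          have hp0 : (0:ℝ) < p := by exact_mod_cast hp'.2.pos
          have hpY : (p:ℝ) ≤ (Y s t : ℝ) := by exact_mod_cast hp'.1.2
          gcongr
    refine le_trans ?_ a1
    have a2 : (D / 2) ^ (s - 1) ≤ Real.log t ^ (s - 1) := by gcongr
    have a3 : D ^ (s - 1) = l ^ (δ * ((s - 1 : ℕ) : ℝ)) := by
      rw [hD, ← Real.rpow_natCast, ← Real.rpow_mul hl0.le]
    have a4 : l ^ (B' + 2) ≤ D ^ (s - 1) := by
      rw [a3]
      exact Real.rpow_le_rpow_of_exponent_le hl1 hsδ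
    have a5 : (((M + 1) * r : ℕ) : ℝ) * (L + 1) ≤ l ^ (B' + 1) := by
      push_cast
      have b1 : (r:ℝ) ≤ l / 8 := by
        refine hrle.trans ?_
        have b2 : l ^ (1 - δ) ≤ l := by
          calc l ^ (1 - δ) ≤ l ^ (1:ℝ) := Real.rpow_le_rpow_of_exponent_le hl1 (by linarith)
            _ = l := Real.rpow_one l
        calc l ^ (1 - δ) / (8 * K) ≤ l / (8 * K) := by gcongr
          _ ≤ l / (8 * 1) := by gcongr
          _ = l / 8 := by ring
      calc ((M:ℝ) + 1) * r * (L + 1) ≤ (2 * l ^ B') * (l / 8) * 4 := by gcongr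
        _ = l ^ B' * l := by ring
        _ = l ^ (B' + 1) := by rw [Real.rpow_add hl0, Real.rpow_one]
    refine a5.trans ?_
    have a6 : l ^ (B' + 2) = l ^ (B' + 1) * l := by
      rw [show B' + 2 = (B' + 1) + 1 by ring, Real.rpow_add hl0 (B' + 1) 1, Real.rpow_one]
    calc l ^ (B' + 1) = c * (l ^ (B' + 1) * (2 ^ (s - 1) / c) / 2 ^ (s - 1)) := by field_simp
      _ ≤ c * (l ^ (B' + 1) * l / 2 ^ (s - 1)) := by gcongr
      _ = c * (l ^ (B' + 2) / 2 ^ (s - 1)) := by rw [a6]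
      _ ≤ c * (D ^ (s - 1) / 2 ^ (s - 1)) := by gcongr
      _ = c * (D / 2) ^ (s - 1) := by rw [div_pow]
      _ ≤ _ := by gcongr
  have hmain := hCMB s t M r (⌊x⌋₊ + 1) hs1 ht2 L hL1 hcond
  -- the set is contained in the filter
  have hsub : {k : ℕ | 1 ≤ k ∧ (k : ℝ) ≤ x ∧ (N k : ℝ) ≤ l ^ B} ⊆
      (((range (⌊x⌋₊ + 1)).filter (fun k => N k ≤ M) : Finset ℕ) : Set ℕ) := by
    intro k hk
    obtain ⟨h1, h2, h3⟩ := hk
    rw [Finset.coe_filter]
    refine ⟨?_, ?_⟩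
    · rw [Finset.mem_range]
      have := Nat.le_floor h2
      omega
    · apply Nat.le_floor
      refine h3.trans ?_
      exact Real.rpow_le_rpow_of_exponent_le hl1 (le_max_left _ _)
  have hcard : ({k : ℕ | 1 ≤ k ∧ (k : ℝ) ≤ x ∧ (N k : ℝ) ≤ l ^ B}.ncard : ℝ) ≤
      (((range (⌊x⌋₊ + 1)).filter (fun k => N k ≤ M)).card : ℝ) := by
    have h1 := Set.ncard_le_ncard hsub (Finset.finite_toSet _)
    rw [Set.ncard_coe_finset] at h1
    exact_mod_cast h1
  refine hcard.trans (hmain.trans ?_)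
  set P : ℝ := l ^ (1 - δ) / (32 * K) with hP
  have hP4 : 4 ≤ P := by
    rw [hP, le_div_iff₀ (by positivity)]; linarith
  have hPl : 32 * P ≤ l := by
    have b2 : l ^ (1 - δ) ≤ l := by
      calc l ^ (1 - δ) ≤ l ^ (1:ℝ) := Real.rpow_le_rpow_of_exponent_le hl1 (by linarith)
        _ = l := Real.rpow_one l
    calc 32 * P = l ^ (1 - δ) / K := by rw [hP]; field_simp
      _ ≤ l ^ (1 - δ) / 1 := by gcongr
      _ ≤ l := by rw [div_one]; exact b2
  have h36 : 36 ≤ Real.exp P := by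
    calc (36:ℝ) ≤ (2.7:ℝ) ^ 4 := by norm_num
      _ ≤ (Real.exp 1) ^ 4 := by
        have := Real.exp_one_gt_d9
        gcongr
        linarith
      _ = Real.exp 4 := by rw [← Real.exp_nat_mul]; norm_num
      _ ≤ Real.exp P := Real.exp_le_exp.2 hP4
  have hAP : l ^ B' ≤ Real.exp P := by
    rw [Real.rpow_def_of_pos hl0]
    apply Real.exp_le_exp.2
    have hlog0 : 0 ≤ Real.log l := Real.log_nonneg hl1
    rw [Real.norm_of_nonneg hlog0, Real.norm_of_nonneg (by positivity)] at hl6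
    calc Real.log l * B' ≤ (1 / (32 * K * (B' + 1)) * l ^ (1 - δ)) * (B' + 1) := by
          apply mul_le_mul hl6 (by linarith) hB'0 (by positivity)
      _ = P := by rw [hP]; field_simp
  have hEP : l ^ (1 - ε) ≤ P := by
    rw [hP, le_div_iff₀ (by positivity)]
    calc l ^ (1 - ε) * (32 * K) ≤ l ^ (1 - ε) * l ^ (ε - δ) := by gcongr
      _ = l ^ (1 - δ) := by rw [← Real.rpow_add hl0]; congr 1; ring
  have hCC : ((Y s t : ℝ) ^ 2 + Y s t + 4) ≤ 6 * Real.exp (l / 2) := by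
    have b1 : (Y s t : ℝ) ^ 2 + Y s t + 4 ≤ 6 * (Y s t : ℝ) ^ 2 := by nlinarith
    refine b1.trans ?_
    have b2 : (Y s t : ℝ) ^ 2 ≤ Real.exp (l / 2) := by
      calc (Y s t : ℝ) ^ 2 ≤ (Real.exp (K * D)) ^ 2 := by gcongr
        _ = Real.exp (2 * (K * D)) := by rw [← Real.exp_nat_mul]; norm_num
        _ ≤ Real.exp (l / 2) := by
          apply Real.exp_le_exp.2
          rw [← hlD]
          nlinarith
    linarith
  have hfin := exp_cmp (l := l) (P := P) (A := l ^ B') (C := (Y s t : ℝ) ^ 2 + Y s t + 4)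
    (E := l ^ (1 - ε)) (by linarith) hPl h36 (by positivity) hAP hEP hCC
  rw [hexl] at hfin
  refine le_trans ?_ hfin
  have hX : ((⌊x⌋₊ + 1 : ℕ) : ℝ) ≤ 2 * x := by
    push_cast
    have := Nat.floor_le hxpos.le
    linarith
  have hLr : (1:ℝ) / L ^ r ≤ 3 * Real.exp (-(4 * P)) := by
    have b1 : L ^ r = Real.exp r := by rw [hL, ← Real.exp_nat_mul]; simp
    rw [b1, one_div, ← Real.exp_neg]
    calc Real.exp (-(r:ℝ)) ≤ Real.exp (1 + -(4 * P)) := by
          apply Real.exp_le_exp.2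
          have : 4 * P = l ^ (1 - δ) / (8 * K) := by rw [hP]; field_simp; ring
          linarith
      _ = Real.exp 1 * Real.exp (-(4 * P)) := Real.exp_add _ _
      _ ≤ 3 * Real.exp (-(4 * P)) := by
          have := Real.exp_one_lt_d9
          gcongr
          linarith
  have hXL : ((⌊x⌋₊ + 1 : ℕ) : ℝ) / L ^ r ≤ 6 * (x * Real.exp (-(4 * P))) := by
    calc ((⌊x⌋₊ + 1 : ℕ) : ℝ) / L ^ r = ((⌊x⌋₊ + 1 : ℕ) : ℝ) * (1 / L ^ r) := by ring
      _ ≤ (2 * x) * (3 * Real.exp (-(4 * P))) := by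
          apply mul_le_mul hX hLr (by positivity) (by linarith)
      _ = _ := by ring
  have hM0 : (0:ℝ) ≤ (M:ℝ) + 1 := by positivity
  have hsum : ((⌊x⌋₊ + 1 : ℕ) : ℝ) / L ^ r + 2 * (Y s t : ℝ) ^ (4 * r) ≤
      6 * (x * Real.exp (-(4 * P))) + 2 * Real.exp (l / 2) := by linarith
  have hnn : 0 ≤ ((⌊x⌋₊ + 1 : ℕ) : ℝ) / L ^ r + 2 * (Y s t : ℝ) ^ (4 * r) := by positivity
  have : ((M:ℝ) + 1) * (((⌊x⌋₊ + 1 : ℕ) : ℝ) / L ^ r + 2 * (Y s t : ℝ) ^ (4 * r)) ≤
      2 * l ^ B' * (6 * (x * Real.exp (-(4 * P))) + 2 * Real.exp (l / 2)) := by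
    apply mul_le_mul hMle hsum hnn (by positivity)
  linarith

end Pool.Agent.H37.SP.Paux
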