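import Pool.Agent.H37.SP.Defs

/-!
Statements of the parts (crew SP, `MP_0cd084_nt`).  Every part is independent: prove
`theorem t_XXX (h1 : S_A) ... : S_XXX` with the hypotheses named in the doc comment (if any).
-/

set_option autoImplicit false

namespace Pool.Agent.H37.SP

open Finset

/-- FIN. (60 lines.) For `k ≥ 2` the solution set is finite.
If `a` is the largest element and `Q` the product of the others, then `a * Q = a + (sum of others)`;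
`Q = 1` would force all others `1`, so `a = a + (k-1)`, impossible; so `Q ≥ 2` and
`a ≤ a (Q-1) = sum of others`; also `prod = sum ≤ k a` gives `Q ≤ k`, hence every other element is
`≤ k` and `a ≤ k * k`. So all elements are `≤ k^2`: finitely many multisets of card `k`. -/
def S_FIN : Prop := ∀ k : ℕ, 2 ≤ k → (solSet k).Finite

/-- SOL. (80 lines.) Write `A = m.prod`, `A * b = p + 1`, `k' = k - 2`, `σ = Σ (a-1)`.
From `p ∣ k' + σ + b` get `p ∣ A (k' + σ) + 1` (`A (k'+σ+b) = A (k'+σ) + 1 + p`), say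
`p * q = A (k'+σ) + 1`. As `p = A b - 1`: `q + 1 = A (b q - k' - σ)`, so `c := b q - k' - σ`
(over ℤ, positive) has `A c = q + 1` and `(A b - 1)(A c - 1) = A (k'+σ) + 1`, i.e.
`A b c = b + c + σ + k'`. The multiset `s = m + {b, c} + replicate (k - 2 - card m) 1` has card `k`
(`card m ≤ k - 2` because `2 ^ card m ≤ A ≤ p + 1`), product `A b c = (p+1) c` and
sum `Σ m + b + c + (k - 2 - card m) = σ + b + c + k'`. And `c` is the largest element: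
`q p > A k' ≥ A (p+1) p` so `q ≥ A (p+1)` and `c > p + 1 ≥ b, A, a` for all `a ∈ m`. -/
def S_SOL : Prop := ∀ (k p : ℕ) (m : Multiset ℕ), (∀ a ∈ m, 2 ≤ a) → 2 ≤ p → m.prod ∣ p + 1 →
    p ^ 2 + p + 2 ≤ k → p ∣ (k - 2) + (m.map (fun a => a - 1)).sum + (p + 1) / m.prod →
    ∃ s ∈ solSet k, ∃ c ∈ s, (∀ a ∈ s, a ≤ c) ∧ s.prod = (p + 1) * c

/-- NGE. (30 lines, from `S_FIN`.) The map `p ↦ s_p` is injective: `c` is the maximum of `s_p`, so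
`s_p = s_p'` gives `c = c'` and `(p+1) c = (p'+1) c`, `c > 0`. -/
def S_NGE : Prop := ∀ (k : ℕ) (P : Finset ℕ), 2 ≤ k →
    (∀ p ∈ P, ∃ s ∈ solSet k, ∃ c ∈ s, (∀ a ∈ s, a ≤ c) ∧ s.prod = (p + 1) * c) → P.card ≤ N k

/-- INJ. (80 lines.) Induction on `s` (`Fin.prod_univ_castSucc`, `Fin.sum_univ_castSucc`): let
`W = t ^ (5^i - 1)/2` with `i = s - 1` bound the product `B, B'` of the first `i` entries, last
entries `x, x'`, `B x = B' x'`. If `B < B'` then `x > x'`, `x - x' = x' (B' - B) / B ≥ x' / B`,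
i.e. `B (x - x') ≥ x' ≥ t ^ 5^i`, while by equality of the sums `x - x' ≤ Σ a'_j ≤ W` (a sum of
numbers `≥ 2` is at most their product), so `t ^ 5^i ≤ W^2 = t^(5^i - 1)`: contradiction. -/
def S_INJ : Prop := ∀ (s t : ℕ), 2 ≤ t → ∀ a b : Fin s → ℕ, a ∈ Box s t → b ∈ Box s t →
    prd a = prd b → sg a = sg b → a = b

/-- BND. (50 lines.) `prd a ≤ ∏ t^(2 * 5^i) = t^((5^s - 1)/2)`, and `Σ (a_i - 1) < ∏ a_i` for
numbers `≥ 1`. -/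
def S_BND : Prop := ∀ (s t : ℕ), 2 ≤ t → ∀ a : Fin s → ℕ, a ∈ Box s t →
    prd a ^ 10 ≤ Y s t ∧ sg a < prd a

/-- CLS. (90 lines, from `S_INJ`, `S_BND`.) Map `a ∈ Tup` to the residue of
`-(sg a + (p+1)/prd a)` modulo `p`; surjective on `Res` by definition, injective: if
`σ + b ≡ σ' + b' (mod p)` with `A b = A' b' = p + 1`, both sides are `< p` (`A^10 ≤ Y ≤ 2p`), so
equal; if `A ≠ A'`, say `A < A'`, then `b - b' = (p+1)(A'-A)/(A A') ≥ (p+1)/(A A') > A' > σ'`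
contradiction; so `A = A'`, `σ = σ'` and `S_INJ` applies. -/
def S_CLS : Prop := ∀ (s t p : ℕ), 1 ≤ s → 2 ≤ t → p ∈ PP s t →
    (Res s t p).card = (Tup s t p).card

/-- HAR. (30 lines.) `log ((n+1)/n) ≤ 1/n`, telescoping over `[T, T^2]`. -/
def S_HAR : Prop := ∀ T : ℕ, 1 ≤ T →
    Real.log T ≤ ∑ n ∈ Finset.Icc T (T ^ 2), (1 : ℝ) / n

/-- BOX. (30 lines, from `S_HAR`.) `Finset.prod_univ_sum`; `log (T t i) ≥ log t`. -/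
def S_BOX : Prop := ∀ (s t : ℕ), 2 ≤ t →
    Real.log t ^ s ≤ ∑ a ∈ Box s t, (1 : ℝ) / (prd a : ℝ)

/-- TAU. (60 lines.) Induction on `j`: `∑_{n ≤ D} τ(n)^(j+1) / n = ∑_n ∑_{de=n} τ(de)^j/(de)
≤ (∑_{d ≤ D} τ(d)^j / d)^2` as `τ(de) ≤ τ(d) τ(e)`; `∑_{d ≤ D} 1/d ≤ 1 + log D`. -/
def S_TAU : Prop := ∀ (j D : ℕ), 1 ≤ D →
    ∑ d ∈ Finset.Icc 1 D, ((d.divisors.card : ℝ) ^ j) / d ≤ (1 + Real.log D) ^ (2 ^ j)

/-- PHI. (15 lines.) `d = ∑_{e ∣ d} φ(e) ≤ τ(d) φ(d)`. -/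
def S_PHI : Prop := ∀ d : ℕ, 1 ≤ d →
    (1 : ℝ) / (Nat.totient d : ℝ) ≤ (d.divisors.card : ℝ) / d

/-- MUL. (20 lines.) Such a tuple lies in `Fintype.piFinset (fun _ => A.divisors)`. -/
def S_MUL : Prop := ∀ (s t A : ℕ), 1 ≤ A →
    ((Box s t).filter (fun a => prd a = A)).card ≤ (A.divisors.card) ^ s

/-- BVL. (helper37, Bombieri-Vinogradov from the library.) -/
def S_BVL : Prop := ∀ s : ℕ, 1 ≤ s → ∃ c : ℝ, 0 < c ∧ ∃ t0 : ℕ, ∀ t ≥ t0,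
    c * (Y s t : ℝ) * Real.log t ^ s ≤
      Real.log t * ∑ p ∈ PP s t, ((Tup s t p).card : ℝ)

/-- PER. (40 lines.) With `X = q a + b`, `b < q`, `S = ∑_{k<q} G k`:
`∑_{k<X} G = a S + ∑_{k<b} G` and `|(b/q) S| ≤ b ≤ q`. -/
def S_PER : Prop := ∀ (q X : ℕ), 0 < q → ∀ G : ℕ → ℝ, (∀ k, |G k| ≤ 1) →
    (∀ k, G (k % q) = G k) →
    |∑ k ∈ range X, G k - X * ((∑ k ∈ range q, G k) / q)| ≤ 2 * q

/-- CRT. (60 lines.) Two coprime moduli by the Chinese remainder theorem (bijection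
`range (m n) → range m × range n`), then induction on the finite set. -/
def S_CRT : Prop := ∀ (r : ℕ) (q : Fin r → ℕ), (∀ i, 0 < q i) →
    (∀ i j, i ≠ j → (q i).Coprime (q j)) → ∀ F : Fin r → ℕ → ℝ,
    (∀ i, ∀ k, F i (k % q i) = F i k) →
    ∑ k ∈ range (∏ i, q i), ∏ i, F i k = ∏ i, ∑ k ∈ range (q i), F i k

/-- PRA. (50 lines.) For two primes `p, p'` let `q = p` if `p = p'` and `q = p p'` otherwise, and
`g_p(k) = 1[k % p ∈ R p] - |R p| / p`. The mean of `g_p g_p'` over `range q` is `0` if `p ≠ p'`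
(CRT for two moduli) and `z (1-z) ≤ z` with `z = |R p|/p` if `p = p'`.  -/
def S_PRA : Prop := ∀ (p p' : ℕ), p.Prime → p'.Prime → ∀ R : ℕ → Finset ℕ, R p ⊆ range p →
    R p' ⊆ range p' → ∀ g : ℕ → ℕ → ℝ,
    (∀ v k, g v k = (if k % v ∈ R v then 1 else 0) - ((R v).card : ℝ) / v) →
    (p ≠ p' → ∑ k ∈ range (p * p'), g p k * g p' k = 0) ∧
    (∑ k ∈ range p, g p k * g p k = ((R p).card : ℝ) * (1 - ((R p).card : ℝ) / p))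

/-- MOM. (150 lines, from `S_PER`, `S_CRT`, `S_PRA`.) With `g_p(k) = 1[k % p ∈ R p] - z_p`,
`z_p = |R p|/p`, `μ_j = ∑_{p ∈ Bk j} z_p`, `X_j(k) = #{p ∈ Bk j : k % p ∈ R p}`:
`∏_j (X_j - μ_j)^2 = ∑_e ∏_j g_{e_j.1} g_{e_j.2}` over `e ∈ ∏_j (Bk j × Bk j)`; each product has
period `∏_j q_{e_j} ≤ y^(2r)` (pairwise coprime), absolute value `≤ 1` and mean
`∏_j mean_{e_j}` with `∑_{e} mean_e = ∑_p z_p (1 - z_p) ≤ μ_j`; so
`∑_{k<X} ∏_j (X_j - μ_j)^2 ≤ X ∏ μ_j + 2 y^(4r)`. For a `k` in the filter `X_j(k) = 0`, so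
`# * ∏ μ_j^2 ≤ X ∏ μ_j + 2 y^(4r)`. -/
def S_MOM : Prop := ∀ (r y X : ℕ) (Bk : Fin r → Finset ℕ),
    (∀ i j, i ≠ j → Disjoint (Bk i) (Bk j)) → (∀ i, ∀ p ∈ Bk i, p.Prime ∧ p ≤ y) →
    ∀ R : ℕ → Finset ℕ, (∀ i, ∀ p ∈ Bk i, R p ⊆ range p) → ∀ L : ℝ, 1 ≤ L →
    (∀ i, L ≤ ∑ p ∈ Bk i, ((R p).card : ℝ) / p) →
    (((range X).filter (fun k => ∀ i, ∀ p ∈ Bk i, k % p ∉ R p)).card : ℝ) ≤
      X / L ^ r + 2 * (y : ℝ) ^ (4 * r)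

/-- GRE. (50 lines.) Induction on `R`: a subset of `P` of minimal size with sum `≥ L` has sum
`≤ L + 1`; remove it. -/
def S_GRE : Prop := ∀ (P : Finset ℕ) (z : ℕ → ℝ), (∀ p ∈ P, 0 ≤ z p ∧ z p ≤ 1) → ∀ L : ℝ, 0 ≤ L →
    ∀ R : ℕ, R * (L + 1) ≤ ∑ p ∈ P, z p →
    ∃ Bk : Fin R → Finset ℕ, (∀ i, Bk i ⊆ P) ∧ (∀ i j, i ≠ j → Disjoint (Bk i) (Bk j)) ∧
      ∀ i, L ≤ ∑ p ∈ Bk i, z p

/-- CMB. (120 lines, from `S_SOL`, `S_NGE`, `S_CLS`, `S_BND`, `S_MOM`, `S_GRE`.) Greedy split of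
`PP s t` into `(M+1) r` blocks `Bk (i,j)`; if `k ≥ Y^2 + Y + 2` and `N k ≤ M` then at most `M`
primes `p ∈ PP` have `(k-2) % p ∈ Res s t p` (by `S_SOL` with `m = univ.val.map a` and `S_NGE`), so
for some `i ≤ M` no prime of the blocks `(i, ·)` is hit by `k - 2`; apply `S_MOM` for each `i`. -/
def S_CMB : Prop := ∀ (s t M r X : ℕ), 1 ≤ s → 2 ≤ t → ∀ L : ℝ, 1 ≤ L →
    (((M + 1) * r : ℕ) : ℝ) * (L + 1) ≤ ∑ p ∈ PP s t, ((Tup s t p).card : ℝ) / p →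
    (((range X).filter (fun k => N k ≤ M)).card : ℝ) ≤
      ((Y s t : ℝ) ^ 2 + Y s t + 4) + (M + 1) * (X / L ^ r + 2 * (Y s t : ℝ) ^ (4 * r))

/-- PAR. (150 lines, from `S_BVL`, `S_CMB`, `S_FIN`.)  For `x` large put `δ = ε/2` (wlog `ε ≤ 1`),
`s > (|B| + 2)/δ + 1`, `K = 5^(s+1)`, `t = ⌊exp ((log x)^δ)⌋`, `r = ⌊(log x)^(1-δ) / (8 K)⌋`,
`L = exp 1`, `M = ⌊(log x)^B⌋`, `X = ⌊x⌋ + 1`; then `Y ≤ exp (K (log x)^δ)`,
`Y^(4r) ≤ exp (log x / 2)`, `(M+1) r (L+1) ≤ 4 * 2 * (log x)^(|B|+1-δ)` and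
`∑ |Tup|/p ≥ (1/Y) ∑ |Tup| ≥ c (log t)^(s-1) ≥ c ((log x)^δ / 2)^(s-1)`. -/
def S_PAR : Prop := ∀ (B ε : ℝ), 0 < ε → ∃ x0 : ℝ, ∀ x : ℝ, x0 ≤ x →
    ({k : ℕ | 1 ≤ k ∧ (k : ℝ) ≤ x ∧ (N k : ℝ) ≤ Real.log x ^ B}.ncard : ℝ) ≤
      x * Real.exp (-(Real.log x ^ (1 - ε)))

end Pool.Agent.H37.SP
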